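import Pool.Agent.P.MP_6e1b89_gt.Main

namespace Pool.Agent.Results.MP_6e1b89_gt.AddBelowB

open Pool.Agent.Lib.Helper87 Pool.Agent.P.MP_6e1b89_gt

/-- There is a transitive model `M` of ZFC containing a family of sets of reals which satisfy the
selection principle in `M`, whose union does not, and whose size is below the bounding number of
`M`: every family of functions in `M` indexed by it is bounded in `M`. -/
theorem result : ∃ M : Set ZFSet.{0}, TransModelZFC M ∧ ∃ 𝓕 : Set (Set ℝ),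
    cSet (cSet cReal) 𝓕 ∈ M ∧ (∀ X ∈ 𝓕, S1 M X) ∧ ¬ S1 M (⋃₀ 𝓕) ∧
    ∀ E : Set ℝ → ℕ → ℕ, cFun (cSet cReal) (cFun cNat cNat Set.univ) 𝓕 E ∈ M →
      ∃ g : ℕ → ℕ, cFun cNat cNat Set.univ g ∈ M ∧
        ∀ X ∈ 𝓕, ∀ᶠ n in Filter.atTop, E X n ≤ g n :=
  main

end Pool.Agent.Results.MP_6e1b89_gt.AddBelowB
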