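import Pool.Agent.P.MP_6e1b89_gt.ZMain

namespace Pool.Agent.Results.MP_6e1b89_gt.BelowSplitting

open Pool.Agent.P.MP_6e1b89_gt.Z

/-- A union of fewer than `b` sets with the selection principle has it, provided the union has
fewer than `s` points. -/
theorem result (𝓕 : Set (Set ℝ)) (hb : Cardinal.mk 𝓕 < bNum)
    (hs : Cardinal.mk (⋃₀ 𝓕) < sNum) (h : ∀ X ∈ 𝓕, S1 X) : S1 (⋃₀ 𝓕) :=
  splitting 𝓕 hb hs h

end Pool.Agent.Results.MP_6e1b89_gt.BelowSplitting
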