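import Pool.Agent.P.MP_6e1b89_gt.ZReal

namespace Pool.Agent.Results.MP_6e1b89_gt.GroupwiseBound

open Pool.Agent.P.MP_6e1b89_gt.Z

/-- The additivity number of the selection principle is at least the minimum of the bounding
number and the groupwise density number for ideals. -/
theorem result : min bNum gfNum ≤ addNum :=
  min_le_add

end Pool.Agent.Results.MP_6e1b89_gt.GroupwiseBound
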